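import Pool.Agent.V7H54.FinK
import Pool.Agent.V7H54.G4

/-!
# The 2-primary part of the Tate-Shafarevich group over a Galois 2-extension `K / F` of number fields is
# trivial for a positive proportion of the elliptic curves over `F`

Let `F` be ANY number field and let `K / F` be ANY finite Galois extension of 2-power degree that is
unramified at the primes of `F` over `2` (`K = F` is allowed; `2` may ramify in `F`; the Galois group, the
ramification at the odd primes and the behaviour at the real places are arbitrary).

Theorem. Among all minimal pairs `(A, B)` of integers of `F`, ordered by height, a positive proportion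
gives a curve `E : y² = x³ + A x + B` with trivial 2-Selmer group over `K`. For these curves
`Ш(E / K)[2^∞] = 0` and `E(K)` is finite of odd order.

So far this was known (in the starting files) for `F = ℚ` and for `K = F`.

The method. As in the case `K = F` (project PF, helper783, with many others) the curves `y² = f(x)` are
found among twists of polynomials `f` with good local properties: lattices with a self-adjoint operator
bound the unramified classes, quadratic reciprocity for trace forms and linear algebra over `F_2` find a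
twist without classes ramified at auxiliary primes `q`. New here are

* the auxiliary primes `q` split completely in `K`, and the classes are classes over `F` that satisfy the
  local conditions over `K`: a nonzero 2-Selmer group over `K` has a nonzero class fixed by
  `Gal(K / F)`, and this comes from a class over `F` (a descent for square classes of the cubic algebra,
  no cohomology is used; files `Desc`, `Sel`);
* the local conditions over `K` imply those over `F`. At the odd primes of `F` ramified in `K` the
  polynomial `f` is chosen irreducible, so there is no class at all; at the other odd primes the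
  valuations and the residue classes descend; at the real places a point of a real component descends;
* at the primes of `F` over `2` the curve has additive reduction of type II and `f` is irreducible: the
  main new part is the descent of the classes of points along an unramified extension `E' / E` of
  complete fields with residue characteristic `2` (files `V3`, `B3`, `C3`, `D3`, `D4`, `E3`, `F3`, `F4`,
  `F5`): every point gives a class `1 + ζ` with an explicit `ζ` of odd valuation `2 n + 1 < 2 e` (or
  `≥ 2 e`), whose leading coefficients are determined by a point over `E` as soon as they are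
  in `E`, and levels are raised by multiplication with classes of points over `E`.

Files `Pool/Agent/V7H54/` (helper54).
-/

set_option autoImplicit false
set_option linter.all false

namespace Pool.Agent.Results.MP_78d38b_nt.RelativeTwoExtensionsH54

open Filter NumberField IsDedekindDomain Pool.Agent.TH115.GD
open scoped Classical

section family

variable (F : Type) [Field F] [NumberField F]

/-- The family of elliptic curves `y ^ 2 = x ^ 3 + A x + B` over `F`: pairs of integers `(A, B)`
of `F` with `4 A ^ 3 + 27 B ^ 2 ≠ 0` for which no nonzero prime ideal `𝔭` satisfies both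
`𝔭 ^ 4 ∣ A` and `𝔭 ^ 6 ∣ B`. -/
def Family : Set (𝓞 F × 𝓞 F) :=
  {p | 4 * p.1 ^ 3 + 27 * p.2 ^ 2 ≠ 0 ∧
    ∀ 𝔭 : Ideal (𝓞 F), 𝔭.IsPrime → 𝔭 ≠ ⊥ → ¬ (p.1 ∈ 𝔭 ^ 4 ∧ p.2 ∈ 𝔭 ^ 6)}

variable {F}

/-- The height `max_σ max (4 |σ A|³, 27 |σ B|²)`, over the embeddings `σ : F → ℂ`. -/
noncomputable def height (p : 𝓞 F × 𝓞 F) : ℝ :=
  ⨆ σ : F →+* ℂ, max (4 * ‖σ (p.1 : F)‖ ^ 3) (27 * ‖σ (p.2 : F)‖ ^ 2)

variable (F)

/-- The members of the family of height at most `X`. -/
def UpTo (X : ℝ) : Set (𝓞 F × 𝓞 F) := {p ∈ Family F | height p ≤ X}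

/-- The curve `y ^ 2 = x ^ 3 + A x + B` over the extension `K` of `F`. -/
def curve (K : Type) [Field K] [Algebra F K] (p : 𝓞 F × 𝓞 F) : WeierstrassCurve K :=
  ⟨0, 0, 0, algebraMap F K (p.1 : F), algebraMap F K (p.2 : F)⟩

end family

section sha

variable (K : Type) [Field K] [NumberField K] (W : WeierstrassCurve K)

/-- The cocycle `f` of `Gal(Sep K / K)` is a coboundary over the completion of `K` at every maximal
ideal of the ring of integers and over `ℝ` for every real place (at the complex places there is no
condition). -/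
structure Locally (f : (Sep K ≃ₐ[K] Sep K) → Pt W (Sep K)) : Prop where
  finite : ∀ v : HeightOneSpectrum (𝓞 K), LocTriv W (Comp (𝓞 K) K v) (Sep (Comp (𝓞 K) K v)) f
  real : ∀ ρ : K →+* ℝ, letI := ρ.toAlgebra; LocTriv W ℝ (Sep ℝ) f

/-- The 2-Selmer group is zero: every continuous cocycle with values in the points of order two
which is a coboundary over all completions, with values in all points, is the coboundary of a point of
order two. -/
def SelTwoZero : Prop :=
  ∀ f : (Sep K ≃ₐ[K] Sep K) → Pt W (Sep K), IsCoc W f → (∀ σ, (2 : ℕ) • f σ = 0) →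
    Locally K W f → ∃ T : Pt W (Sep K), (2 : ℕ) • T = 0 ∧ ∀ σ, f σ = act W (rs K σ) T - T

/-- The 2-primary part of the Tate-Shafarevich group is zero: every continuous cocycle whose class
is killed by a power of two and which is a coboundary over all completions is a coboundary. -/
def ShaTwoZero : Prop :=
  ∀ f : (Sep K ≃ₐ[K] Sep K) → Pt W (Sep K), IsCoc W f → Locally K W f →
    (∃ (n : ℕ) (Q : Pt W (Sep K)), ∀ σ, 2 ^ n • f σ = act W (rs K σ) Q - Q) →
    ∃ Q : Pt W (Sep K), ∀ σ, f σ = act W (rs K σ) Q - Q

end sha

/-- Over `K`: trivial 2-Selmer group, trivial 2-primary part of the Tate-Shafarevich group, and a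
finite group of points, of odd order. -/
structure Good (F K : Type) [Field F] [NumberField F] [Field K] [NumberField K] [Algebra F K]
    (p : 𝓞 F × 𝓞 F) : Prop where
  sel : SelTwoZero K (curve F K p)
  sha : ShaTwoZero K (curve F K p)
  finite : Finite (Pt (curve F K p) K)
  odd : Odd (Nat.card (Pt (curve F K p) K))

theorem crv_iff {F : Type} [Field F] [NumberField F] (X : ℝ) (p : 𝓞 F × 𝓞 F) :
    Pool.Agent.N783.PF.Crv X p ↔ p ∈ UpTo F X := by
  have hb : BddAbove (Set.range fun σ : F →+* ℂ =>
      max (4 * ‖σ (p.1 : F)‖ ^ 3) (27 * ‖σ (p.2 : F)‖ ^ 2)) := Set.Finite.bddAbove (Set.finite_range _)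
  constructor
  · rintro ⟨h1, h2, h3⟩
    refine ⟨⟨h1, h2⟩, ciSup_le fun σ => max_le (h3 σ).1 (h3 σ).2⟩
  · rintro ⟨⟨h1, h2⟩, h3⟩
    refine ⟨h1, h2, fun σ => ?_⟩
    have h4 := (le_ciSup hb σ).trans h3
    exact ⟨(le_max_left _ _).trans h4, (le_max_right _ _).trans h4⟩

/-- For every Galois extension `K / F` of number fields of degree `2 ^ n` that is unramified at
the primes of `F` over `2` (`𝔭 𝓞 K` is not contained in the square of a prime ideal of `K`, for the primes
`𝔭` of `F` with `2 ∈ 𝔭`) there is `c > 0` such that for all large `X` at least `c` times the number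
of pairs `(A, B)` of the family of height at most `X` give a curve `E` over `F` with trivial 2-Selmer group
over `K`, trivial 2-primary part of `Ш(E / K)`, and `E(K)` finite of odd order. -/
theorem result (F K : Type) [Field F] [NumberField F] [Field K] [NumberField K] [Algebra F K]
    [IsGalois F K] (n : ℕ) (hn : Module.finrank F K = 2 ^ n)
    (h2 : ∀ 𝔭 : Ideal (𝓞 F), 𝔭.IsPrime → (2 : 𝓞 F) ∈ 𝔭 →
      ∀ 𝔓 : Ideal (𝓞 K), 𝔓.IsPrime → ¬ 𝔭.map (algebraMap (𝓞 F) (𝓞 K)) ≤ 𝔓 ^ 2) :
    (∀ X : ℝ, (UpTo F X).Finite) ∧
    ∃ c : ℝ, 0 < c ∧ ∀ᶠ X : ℝ in atTop,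
      0 < (UpTo F X).ncard ∧
      c * ((UpTo F X).ncard : ℝ) ≤ (({p ∈ UpTo F X | Good F K p}).ncard : ℝ) := by
  have hset : ∀ X : ℝ, UpTo F X = {p : 𝓞 F × 𝓞 F | Pool.Agent.N783.PF.Crv X p} := by
    intro X
    ext p
    exact (crv_iff X p).symm
  have hH : Pool.Agent.V7H54.S_H F K := Pool.Agent.V7H54.V3.s_H hn fun w hw 𝔔 h𝔔 =>
    h2 w.asIdeal w.isPrime hw 𝔔 h𝔔
  obtain ⟨c, hc, Y₀, h⟩ := Pool.Agent.V7H54.fin1K F K n hn hH
  have hfin : ∀ X : ℝ, (UpTo F X).Finite := fun X => by
    rw [hset]
    exact (h X).1
  refine ⟨hfin, c, hc, ?_⟩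
  filter_upwards [eventually_ge_atTop Y₀] with X hX
  obtain ⟨h1, h3⟩ := (h X).2 hX
  rw [← hset] at h1 h3
  refine ⟨h1, h3.trans ?_⟩
  have h4 : {p : 𝓞 F × 𝓞 F | Pool.Agent.N783.PF.Crv X p ∧ Pool.Agent.V7H54.GoodK F K p} ⊆
      {p ∈ UpTo F X | Good F K p} := by
    rintro p ⟨hp, hg⟩
    refine ⟨(crv_iff X p).1 hp, ?_, ?_, hg.fin, hg.odd⟩
    · intro f hf1 hf2 hf3
      exact hg.sel f hf1 hf2 ⟨hf3.finite, hf3.real⟩
    · intro f hf1 hf2 hf3
      exact hg.sha f hf1 ⟨hf2.finite, hf2.real⟩ hf3
  have h5 := Set.ncard_le_ncard h4 ((hfin X).subset fun p hp => hp.1)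
  exact_mod_cast h5

end Pool.Agent.Results.MP_78d38b_nt.RelativeTwoExtensionsH54
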