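import Pool.Agent.V7H54.M.GenP

/-!
# The average rank of the curves `y² = x³ + b x² + c x + t`, `b` and `c` fixed

Let `b`, `c` be ANY integers with `b² ≠ 3 c`, that is, the cubic `g = x³ + b x² + c x` is not of the form
`(x - u)³ + v`. For an integer `t` let `E_t` be the curve `y² = g(x) + t`. This is a family with one
parameter and a non-constant `j`-invariant. It contains in particular every slice `y² = x³ + A x + t`,
`A ≠ 0` fixed, of the family of all elliptic curves in the problem.

Theorem. The average rank of `E_t` is bounded in each such slice, unconditionally, and even the average of
`2 ^ rank` is: there is `C = C(b, c)` such that for all `T ≥ 1` the sum of `2 ^ rk E_t(ℚ)` over ALL `t` with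
`|t| ≤ T` for which `E_t` is an elliptic curve is at most `C T`.

So the upper average rank in the slice is finite; at most `C T / 2 ^ r` of the `t` with `|t| ≤ T` have rank at
least `r`; for every `δ > 0` there is `r` such that the rank is at most `r` for all but `δ T` of the `t`.

What was known: the theorem of Bhargava and Shankar for all elliptic curves, ordered by height (two
parameters; a slice has about `X ^ (1/2)` of the about `X ^ (5/6)` curves of height at most `X`, so it is
invisible there). For one-parameter families: quadratic twists of a fixed curve (Heath-Brown, Kane, Smith and others)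
and the curves `y² = x³ + k` and cubic twists (Ruth, Alpoge-Bhargava-Shnidman); the excluded case `b² = 3 c` is
the second one. For families with non-constant `j`-invariant there are unconditional bounds for families with
full rational 2-torsion (starting library of the package, and the hand-in SplitFamiliesH45 on this problem);
for other families, as here, I only know bounds for the average rank which assume the Riemann hypothesis and
the conjecture of Birch and Swinnerton-Dyer (Silverman, Michel, Fouvry-Pomykala and others).

The proof. Let `P = (r / s², u / s³)` be a point, `f_t` irreducible, `θ` a root. In the ring `ℤ[θ]`, which need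
not be maximal, the ideal `(u, r - s² θ)` is a lattice which is unimodular for the form `x y / (r - s² θ)`
(`M/LatP`). So one gets a pair of integral ternary quadratic forms, the first one of determinant `± 1` and
isotropic. The reduction theory of project PF gives a basis of a sublattice of bounded index in which the
first form is antidiagonal and the entries of the second are bounded by `C T ^ (1/3)`, with weights
`4 ^ (-k)`, ..., `4 ^ k` in the cusp. The linear coefficient of the cubic does not depend on `t`: this is the
equation of a quadric in five variables, and one counts its integral points in the box and in the cusp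
with the right order (`A/`, `N/QcN`, `N/CnN`). The forms determine `r - s² θ` up to squares
(`N/SepN`), and this determines the point modulo `2 E_t(ℚ)` (`M/DescP`). The reducible `f_t` (about
`T ^ (1/3)` values of `t`) have a rational point of order two; a descent as for a 2-isogeny with explicit square
classes bounds `2 ^ rank` by the product of the numbers of the divisors of two integers of size
`T ^ (2/3)`, and this is `≪ T ^ (2/3)` (`M/RedA`, `M/RedP`, `M/RedC`). Mordell's theorem is taken from
`Pool/Agent/H64R2/DD_MWK.lean`.

Files `Pool/Agent/V7H54/A/`, `Pool/Agent/V7H54/N/` and `Pool/Agent/V7H54/M/` (helper54).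
-/

set_option autoImplicit false
set_option linter.all false

open scoped Classical

namespace Pool.Agent.V7H54.Old.SliceAverageRankH54

/-- The curve `y² = x³ + b x² + c x + t` over `ℚ`. -/
def Curve (b c t : ℤ) : WeierstrassCurve.Affine ℚ := ⟨0, b, 0, c, t⟩

/-- Its rank, the rank of the abelian group of the rational points. -/
noncomputable def rk (b c t : ℤ) : ℕ := Module.finrank ℤ (Curve b c t).Point

/-- Let `b`, `c` be integers with `b² ≠ 3 c`. If the discriminant of `y² = x³ + b x² + c x + t` is not zero then its
group of rational points is finitely generated (Mordell); and there is `C` such that for all `T ≥ 1` the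
sum of `2 ^ rank` over all integers `t` with `|t| ≤ T` for which the discriminant is not zero is at most
`C T`. -/
theorem result (b c : ℤ) (hbc : b ^ 2 ≠ 3 * c) :
    (∀ t : ℤ, (Curve b c t).Δ ≠ 0 → Module.Finite ℤ (Curve b c t).Point) ∧
    ∃ C : ℝ, ∀ T : ℕ, 1 ≤ T →
      ∑ t ∈ (Finset.Icc (-(T : ℤ)) T).filter (fun t => (Curve b c t).Δ ≠ 0),
        (2 : ℝ) ^ rk b c t ≤ C * T := by
  refine ⟨fun t h => Pool.Agent.V7H54.M.fg h, ?_⟩
  obtain ⟨C, -, h⟩ := Pool.Agent.V7H54.M.main_gen hbc
  refine ⟨C, fun T hT => h T (by exact_mod_cast hT) _ fun t ht => ?_⟩
  rw [Finset.mem_filter, Finset.mem_Icc] at ht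
  refine ⟨?_, ht.2⟩
  have h1 : |t| ≤ (T : ℤ) := abs_le.2 ht.1
  exact_mod_cast h1

end Pool.Agent.V7H54.Old.SliceAverageRankH54
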