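import Pool.Agent.V7H54.U.FinU

/-!
# The 2-primary part of the Tate-Shafarevich group is trivial over infinitely many Galois 2-extensions of a
# number field at once, for a positive proportion of the elliptic curves

Let `F` be ANY number field. For an elliptic curve `E : y² = x³ + A x + B` over `F` with integral `A`, `B` and
a finite set `S` of prime numbers let `𝓔(E, S)` be the class of ALL finite Galois extensions `K / F` of
2-power degree such that

* `K / F` is unramified at the primes over `2`;
* all primes of `S` split completely in `K`;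
* `x³ + A x + B` is irreducible modulo every prime of `F` that is ramified in `K`.

There is no condition at the infinite places or on the Galois group, and no other condition at the primes of
bad reduction than that they are unramified. The class is closed under composita and contains the Galois
subextensions of its members.

Theorem. For every finite set `T` of primes of `F` there are a finite set `S` of prime numbers which split
completely in `F`, prime to `T`, and `c > 0`, such that for all large `X` a proportion at least `c` of the minimal pairs `(A, B)` of height at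
most `X` gives curves `E` such that `x³ + A x + B` is irreducible modulo all primes in `T` and, for ALL
`K` in `𝓔(E, S)`, the 2-Selmer group of `E` over `K` is trivial, `Ш(E / K)[2^∞] = 0`, and `E(K)` is finite
of odd order.

So one set of curves of positive density works for all these fields `K` at once. The fields may be ramified
at the primes in `T` and at all other primes modulo which `x³ + A x + B` is irreducible. For the curves which
we construct the class is infinite, with members of unbounded degree (this is not formalized): by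
Chebotarev's theorem there are infinitely many principal primes `(δ)` modulo which `x³ + A x + B` is
irreducible, with `δ = 1` modulo `8` and modulo the primes in `S`, and the class contains all the fields
generated by some of the `√δ`. In
`MP_78d38b_nt.RelativeTwoExtensionsH54` the field `K` is given first and the set of the curves depends on `K`
(but it is not asked that given primes split in `K`); neither theorem contains the other.

The proof: the curves are twists, by products `D` of primes in `S`, of curves in a family with irreducible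
reduction at the primes in `T` and over `2` and with additive reduction of type II at the primes over `2`. The set
`S` and the twist only depend on `F`, `T` and on the curve in the family: the bad set of the reduction theory
and the linear algebra over `𝔽₂` do not involve `K`. A class over `K` descends to `F` (files `Desc`, `Sel`);
the local conditions over `K` imply those over `F` (files `LocK`, `V3`, ..., `G4`), for all `K` in the
class. As in the case of one field `K` the method is that of project PF (helper783, with many others).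

Files `Pool/Agent/V7H54/` (helper54).
-/

set_option autoImplicit false
set_option linter.all false

namespace Pool.Agent.Results.MP_78d38b_nt.UniformTwoExtensionsH54

open Filter NumberField IsDedekindDomain Pool.Agent.TH115.GD
open scoped Classical

section family

variable (F : Type) [Field F] [NumberField F]

/-- The family of elliptic curves `y ^ 2 = x ^ 3 + A x + B` over `F`: pairs of integers `(A, B)`
of `F` with `4 A ^ 3 + 27 B ^ 2 ≠ 0` for which no nonzero prime ideal `𝔭` satisfies both
`𝔭 ^ 4 ∣ A` and `𝔭 ^ 6 ∣ B`. -/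
def Family : Set (𝓞 F × 𝓞 F) :=
  {p | 4 * p.1 ^ 3 + 27 * p.2 ^ 2 ≠ 0 ∧
    ∀ 𝔭 : Ideal (𝓞 F), 𝔭.IsPrime → 𝔭 ≠ ⊥ → ¬ (p.1 ∈ 𝔭 ^ 4 ∧ p.2 ∈ 𝔭 ^ 6)}

variable {F}

/-- The height `max_σ max (4 |σ A|³, 27 |σ B|²)`, over the embeddings `σ : F → ℂ`. -/
noncomputable def height (p : 𝓞 F × 𝓞 F) : ℝ :=
  ⨆ σ : F →+* ℂ, max (4 * ‖σ (p.1 : F)‖ ^ 3) (27 * ‖σ (p.2 : F)‖ ^ 2)

variable (F)

/-- The members of the family of height at most `X`. -/
def UpTo (X : ℝ) : Set (𝓞 F × 𝓞 F) := {p ∈ Family F | height p ≤ X}

/-- The curve `y ^ 2 = x ^ 3 + A x + B` over the extension `K` of `F`. -/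
def curve (K : Type) [Field K] [Algebra F K] (p : 𝓞 F × 𝓞 F) : WeierstrassCurve K :=
  ⟨0, 0, 0, algebraMap F K (p.1 : F), algebraMap F K (p.2 : F)⟩

variable {F}

/-- `x ^ 3 + A x + B` is irreducible modulo the prime ideal `𝔭`. -/
def IrreducibleModulo (𝔭 : Ideal (𝓞 F)) (p : 𝓞 F × 𝓞 F) : Prop :=
  Irreducible ((Polynomial.X ^ 3 + Polynomial.C p.1 * Polynomial.X + Polynomial.C p.2).map
    (Ideal.Quotient.mk 𝔭))

end family

section sha

variable (K : Type) [Field K] [NumberField K] (W : WeierstrassCurve K)

/-- The cocycle `f` of `Gal(Sep K / K)` is a coboundary over the completion of `K` at every maximal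
ideal of the ring of integers and over `ℝ` for every real place (at the complex places there is no
condition). -/
structure Locally (f : (Sep K ≃ₐ[K] Sep K) → Pt W (Sep K)) : Prop where
  finite : ∀ v : HeightOneSpectrum (𝓞 K), LocTriv W (Comp (𝓞 K) K v) (Sep (Comp (𝓞 K) K v)) f
  real : ∀ ρ : K →+* ℝ, letI := ρ.toAlgebra; LocTriv W ℝ (Sep ℝ) f

/-- The 2-Selmer group is zero: every continuous cocycle with values in the points of order two
which is a coboundary over all completions, with values in all points, is the coboundary of a point of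
order two. -/
def SelTwoZero : Prop :=
  ∀ f : (Sep K ≃ₐ[K] Sep K) → Pt W (Sep K), IsCoc W f → (∀ σ, (2 : ℕ) • f σ = 0) →
    Locally K W f → ∃ T : Pt W (Sep K), (2 : ℕ) • T = 0 ∧ ∀ σ, f σ = act W (rs K σ) T - T

/-- The 2-primary part of the Tate-Shafarevich group is zero: every continuous cocycle whose class
is killed by a power of two and which is a coboundary over all completions is a coboundary. -/
def ShaTwoZero : Prop :=
  ∀ f : (Sep K ≃ₐ[K] Sep K) → Pt W (Sep K), IsCoc W f → Locally K W f →
    (∃ (n : ℕ) (Q : Pt W (Sep K)), ∀ σ, 2 ^ n • f σ = act W (rs K σ) Q - Q) →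
    ∃ Q : Pt W (Sep K), ∀ σ, f σ = act W (rs K σ) Q - Q

end sha

/-- Over `K`: trivial 2-Selmer group, trivial 2-primary part of the Tate-Shafarevich group, and a
finite group of points, of odd order. -/
structure Good (F K : Type) [Field F] [NumberField F] [Field K] [NumberField K] [Algebra F K]
    (p : 𝓞 F × 𝓞 F) : Prop where
  sel : SelTwoZero K (curve F K p)
  sha : ShaTwoZero K (curve F K p)
  finite : Finite (Pt (curve F K p) K)
  odd : Odd (Nat.card (Pt (curve F K p) K))

/-- The prime ideal `𝔭` of `F` is ramified in `K`: `𝔭 𝓞 K` is contained in the square of a prime ideal. -/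
def Ramified (F K : Type) [Field F] [NumberField F] [Field K] [NumberField K] [Algebra F K]
    (𝔭 : Ideal (𝓞 F)) : Prop :=
  ∃ 𝔓 : Ideal (𝓞 K), 𝔓.IsPrime ∧ 𝔭.map (algebraMap (𝓞 F) (𝓞 K)) ≤ 𝔓 ^ 2

/-- The prime number `q` splits completely in `K`: the prime ideals of `K` over `q` are unramified over
`q`, with `q` residue classes. -/
def SplitsCompletely (K : Type) [Field K] [NumberField K] (q : ℕ) : Prop :=
  ∀ 𝔓 : Ideal (𝓞 K), 𝔓.IsPrime → (q : 𝓞 K) ∈ 𝔓 →
    (q : 𝓞 K) ∉ 𝔓 ^ 2 ∧ Nat.card (𝓞 K ⧸ 𝔓) = q

/-- The class `𝓔(E, S)`: `K / F` is a Galois extension of 2-power degree, unramified at the primes over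
`2`; all primes `q ∈ S` split completely in `K`; and `x ^ 3 + A x + B` is irreducible modulo all primes of
`F` which are ramified in `K`. -/
structure InClass (F : Type) [Field F] [NumberField F] (S : Finset ℕ) (p : 𝓞 F × 𝓞 F) (K : Type)
    [Field K] [NumberField K] [Algebra F K] : Prop where
  galois : IsGalois F K
  degree : ∃ n : ℕ, Module.finrank F K = 2 ^ n
  two : ∀ 𝔭 : Ideal (𝓞 F), 𝔭.IsPrime → (2 : 𝓞 F) ∈ 𝔭 → ¬ Ramified F K 𝔭
  split : ∀ q ∈ S, SplitsCompletely K q
  irreducible : ∀ 𝔭 : Ideal (𝓞 F), 𝔭.IsPrime → 𝔭 ≠ ⊥ → Ramified F K 𝔭 → IrreducibleModulo 𝔭 p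

theorem crv_iff {F : Type} [Field F] [NumberField F] (X : ℝ) (p : 𝓞 F × 𝓞 F) :
    Pool.Agent.N783.PF.Crv X p ↔ p ∈ UpTo F X := by
  have hb : BddAbove (Set.range fun σ : F →+* ℂ =>
      max (4 * ‖σ (p.1 : F)‖ ^ 3) (27 * ‖σ (p.2 : F)‖ ^ 2)) := Set.Finite.bddAbove (Set.finite_range _)
  constructor
  · rintro ⟨h1, h2, h3⟩
    refine ⟨⟨h1, h2⟩, ciSup_le fun σ => max_le (h3 σ).1 (h3 σ).2⟩
  · rintro ⟨⟨h1, h2⟩, h3⟩
    refine ⟨h1, h2, fun σ => ?_⟩
    have h4 := (le_ciSup hb σ).trans h3
    exact ⟨(le_max_left _ _).trans h4, (le_max_right _ _).trans h4⟩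

/-- For every number field `F` and every finite set `T` of primes of `F` there are a finite set `S` of
prime numbers which split completely in `F` and are not in the primes in `T`, and `c > 0`, such that for all large `X` at least
`c` times the number of pairs `(A, B)` of the family of height at most `X` give curves `E` over `F` for
which `x ^ 3 + A x + B` is irreducible modulo all primes in `T` and such that for ALL the extensions `K / F`
in the class `𝓔(E, S)` the 2-Selmer group of `E` over `K` is trivial, the 2-primary part of `Ш(E / K)` is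
trivial, and `E(K)` is finite of odd order. -/
theorem result (F : Type) [Field F] [NumberField F] (T : Finset (HeightOneSpectrum (𝓞 F))) :
    (∀ X : ℝ, (UpTo F X).Finite) ∧
    ∃ S : Finset ℕ, (∀ q ∈ S, q.Prime ∧ SplitsCompletely F q ∧ ∀ v ∈ T, (q : 𝓞 F) ∉ v.asIdeal) ∧
    ∃ c : ℝ, 0 < c ∧ ∀ᶠ X : ℝ in atTop,
      0 < (UpTo F X).ncard ∧
      c * ((UpTo F X).ncard : ℝ) ≤ (({p ∈ UpTo F X |
        (∀ v ∈ T, IrreducibleModulo v.asIdeal p) ∧
        ∀ (K : Type) [Field K] [NumberField K] [Algebra F K], InClass F S p K →
          Good F K p}).ncard : ℝ) := by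
  have hset : ∀ X : ℝ, UpTo F X = {p : 𝓞 F × 𝓞 F | Pool.Agent.N783.PF.Crv X p} := by
    intro X
    ext p
    exact (crv_iff X p).symm
  obtain ⟨S, hST, c, hc, Y₀, h⟩ := Pool.Agent.V7H54.U.finU F T
  have hfin : ∀ X : ℝ, (UpTo F X).Finite := fun X => by
    rw [hset]
    exact (h X).1
  refine ⟨hfin, S, fun q hq => ⟨(hST q hq).1, fun 𝔓 h𝔓 hm => ?_, (hST q hq).2.1⟩, c, hc, ?_⟩
  · have h6 := (hST q hq).2.2 𝔓 h𝔓
    exact ⟨h6.1, h6.2 hm⟩
  filter_upwards [eventually_ge_atTop Y₀] with X hX
  obtain ⟨h1, h3⟩ := (h X).2 hX
  rw [← hset] at h1 h3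
  refine ⟨h1, h3.trans ?_⟩
  have h4 : {p : 𝓞 F × 𝓞 F | Pool.Agent.N783.PF.Crv X p ∧ Pool.Agent.V7H54.U.GoodU F S T p} ⊆
      {p ∈ UpTo F X | (∀ v ∈ T, IrreducibleModulo v.asIdeal p) ∧
        ∀ (K : Type) [Field K] [NumberField K] [Algebra F K], InClass F S p K → Good F K p} := by
    rintro p ⟨hp, hT, hK⟩
    refine ⟨(crv_iff X p).1 hp, hT, fun K _ _ _ hE => ?_⟩
    have hunr : ∀ w : HeightOneSpectrum (𝓞 F),
        ¬ Pool.Agent.V7H54.Unr F K w → Ramified F K w.asIdeal := by
      intro w hw
      unfold Pool.Agent.V7H54.Unr at hw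
      push Not at hw
      obtain ⟨𝔔, h𝔔, hle⟩ := hw
      exact ⟨𝔔, h𝔔, hle⟩
    have hg := hK K ⟨hE.galois, hE.degree, fun w hw => ?_, fun q hq 𝔔 h𝔔 => ?_, fun w hw =>
      hE.irreducible w.asIdeal w.isPrime w.ne_bot (hunr w hw)⟩
    · refine ⟨?_, ?_, hg.fin, hg.odd⟩
      · intro f hf1 hf2 hf3
        exact hg.sel f hf1 hf2 ⟨hf3.finite, hf3.real⟩
      · intro f hf1 hf2 hf3
        exact hg.sha f hf1 ⟨hf2.finite, hf2.real⟩ hf3
    · by_contra hcon
      exact hE.two w.asIdeal w.isPrime hw (hunr w hcon)
    · refine ⟨fun hm => ?_, fun hm => (hE.split q hq 𝔔 h𝔔 hm).2⟩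
      exact (hE.split q hq 𝔔 h𝔔 (Ideal.pow_le_self two_ne_zero hm)).1 hm
  have h5 := Set.ncard_le_ncard h4 ((hfin X).subset fun p hp => hp.1)
  exact_mod_cast h5

end Pool.Agent.Results.MP_78d38b_nt.UniformTwoExtensionsH54
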